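import Pool.Agent.H8.ZA.Targets
import Pool.Agent.H8.ZA.Basic

set_option autoImplicit false

open MvPolynomial
open Pool.Agent.H12.ZD (pmap v NoInv DenseOrbit)

namespace Pool.Agent.H8.ZA

section FBA

variable {κ : Type} [Field κ]

/-- all monomials have degree at most `n` -/
def LeD (p : Po κ) (n : ℕ) : Prop := ∀ m : Fin 3 →₀ ℕ, n < m.degree → coeff m p = 0

/-- all monomials have degree less than `n` -/
def LtD (p : Po κ) (n : ℕ) : Prop := ∀ m : Fin 3 →₀ ℕ, n ≤ m.degree → coeff m p = 0

theorem LtD.le {p : Po κ} {n : ℕ} (h : LtD p n) : LeD p n := fun m hm => h m hm.le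

theorem LtD.mono {p : Po κ} {n k : ℕ} (h : LtD p n) (hk : n ≤ k) : LtD p k :=
  fun m hm => h m (hk.trans hm)

theorem LtD.add {p q : Po κ} {n : ℕ} (h : LtD p n) (h' : LtD q n) : LtD (p + q) n := by
  intro m hm
  rw [coeff_add, h m hm, h' m hm, add_zero]

theorem LtD.zero (n : ℕ) : LtD (0 : Po κ) n := fun m _ => coeff_zero m

theorem LtD.smul {p : Po κ} {n : ℕ} (c : κ) (h : LtD p n) : LtD (c • p) n := by
  intro m hm
  rw [coeff_smul, h m hm, smul_zero]

theorem LtD.mul_left {p q : Po κ} {n k : ℕ} (hp : LeD p k) (hq : LtD q n) : LtD (p * q) (k + n) := by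
  classical
  intro m hm
  rw [coeff_mul]
  apply Finset.sum_eq_zero
  intro x hx
  rw [Finset.HasAntidiagonal.mem_antidiagonal] at hx
  have hd : x.1.degree + x.2.degree = m.degree := by rw [← hx, map_add]
  rcases lt_or_ge k x.1.degree with h1 | h1
  · rw [hp _ h1, zero_mul]
  · rw [hq _ (by omega), mul_zero]

theorem LtD.mul_right {p q : Po κ} {n k : ℕ} (hp : LtD p n) (hq : LeD q k) : LtD (p * q) (n + k) := by
  rw [mul_comm, add_comm]
  exact LtD.mul_left hq hp

theorem LeD.mul {p q : Po κ} {n k : ℕ} (hp : LeD p n) (hq : LeD q k) : LeD (p * q) (n + k) := by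
  classical
  intro m hm
  rw [coeff_mul]
  apply Finset.sum_eq_zero
  intro x hx
  rw [Finset.HasAntidiagonal.mem_antidiagonal] at hx
  have hd : x.1.degree + x.2.degree = m.degree := by rw [← hx, map_add]
  rcases lt_or_ge n x.1.degree with h1 | h1
  · rw [hp _ h1, zero_mul]
  · rw [hq _ (by omega), mul_zero]

/-- same leading form of degree `n` -/
structure Eqv (p q : Po κ) (n : ℕ) : Prop where
  l : LeD p n
  r : LeD q n
  d : LtD (p - q) n

theorem Eqv.mul {p q p' q' : Po κ} {n k : ℕ} (h : Eqv p q n) (h' : Eqv p' q' k) :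
    Eqv (p * p') (q * q') (n + k) := by
  refine ⟨h.l.mul h'.l, h.r.mul h'.r, ?_⟩
  have e : p * p' - q * q' = p * (p' - q') + (p - q) * q' := by ring
  rw [e]
  exact (LtD.mul_left h.l h'.d).add (h.d.mul_right h'.r)

theorem Eqv.one : Eqv (1 : Po κ) 1 0 := by
  classical
  have : LeD (1 : Po κ) 0 := by
    intro m hm
    rw [coeff_one, if_neg]
    rintro rfl
    simp at hm
  refine ⟨this, this, ?_⟩
  rw [sub_self]
  exact LtD.zero _

theorem Eqv.pow {p q : Po κ} {n : ℕ} (h : Eqv p q n) (a : ℕ) : Eqv (p ^ a) (q ^ a) (n * a) := by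
  induction a with
  | zero => simpa using Eqv.one
  | succ a ih =>
    rw [pow_succ, pow_succ, Nat.mul_succ]
    exact ih.mul h

theorem Eqv.prod {α : Type} (s : Finset α) (p q : α → Po κ) (n : α → ℕ)
    (h : ∀ i, Eqv (p i) (q i) (n i)) : Eqv (∏ i ∈ s, p i) (∏ i ∈ s, q i) (∑ i ∈ s, n i) := by
  classical
  induction s using Finset.induction_on with
  | empty => simpa using Eqv.one
  | insert a s ha ih =>
    rw [Finset.prod_insert ha, Finset.prod_insert ha, Finset.sum_insert ha]
    exact (h a).mul ih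

theorem Eqv.refl_X (i : Fin 3) : Eqv (X i : Po κ) (X i) 1 := by
  classical
  have : LeD (X i : Po κ) 1 := by
    intro m hm
    rw [coeff_X', if_neg]
    rintro rfl
    rw [Finsupp.degree_single] at hm
    omega
  refine ⟨this, this, ?_⟩
  rw [sub_self]
  exact LtD.zero _

theorem ltD_of_totalDegree {p : Po κ} {n : ℕ} (h : p.totalDegree < n) : LtD p n := by
  intro m hm
  by_contra hcon
  have h1 := le_totalDegree (mem_support_iff.2 hcon)
  have h2 : m.degree = m.sum fun _ e => e := rfl
  omega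

/-- the elements `ψ^a x^e` -/
noncomputable def BB (f : Tup κ) (Q : ℕ) (m : Fin 3 →₀ ℕ) : Po κ :=
  ∏ i, ((X i ^ Q - f i) ^ (m i / Q) * X i ^ (m i % Q))

theorem BB_eqv {f : Tup κ} {Q : ℕ} (hf : deg f < Q) (m : Fin 3 →₀ ℕ) :
    Eqv (BB f Q m) (monomial m 1) m.degree := by
  have h1 : ∀ i, Eqv (X i ^ Q - f i) (X i ^ Q : Po κ) Q := by
    intro i
    have hX := (Eqv.refl_X (κ := κ) i).pow Q
    rw [one_mul] at hX
    have hfi : LtD (f i) Q := ltD_of_totalDegree (lt_of_le_of_lt (totalDegree_le_deg f i) hf)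
    refine ⟨?_, hX.r, ?_⟩
    · intro m hm
      rw [coeff_sub, hX.l m hm, hfi m hm.le, sub_zero]
    · have : X i ^ Q - f i - X i ^ Q = (-1 : κ) • f i := by
        rw [neg_smul, one_smul]; ring
      rw [this]
      exact hfi.smul _
  have h2 := Eqv.prod Finset.univ
    (fun i => (X i ^ Q - f i) ^ (m i / Q) * X i ^ (m i % Q))
    (fun i => (X i ^ Q : Po κ) ^ (m i / Q) * X i ^ (m i % Q))
    (fun i => Q * (m i / Q) + 1 * (m i % Q))
    (fun i => ((h1 i).pow (m i / Q)).mul ((Eqv.refl_X i).pow (m i % Q)))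
  have e1 : ∏ i, (X i ^ Q : Po κ) ^ (m i / Q) * X i ^ (m i % Q) = monomial m 1 := by
    rw [monomial_eq, C_1, one_mul, Finsupp.prod_fintype _ _ (fun i => pow_zero _)]
    apply Finset.prod_congr rfl
    intro i _
    rw [← pow_mul, ← pow_add, Nat.div_add_mod]
  have e2 : ∑ i, (Q * (m i / Q) + 1 * (m i % Q)) = m.degree := by
    rw [Finsupp.degree_eq_sum]
    apply Finset.sum_congr rfl
    intro i _
    rw [one_mul, Nat.div_add_mod]
  rw [e1, e2] at h2
  exact h2

/-- the linear map `x^m ↦ ψ^a x^e` -/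
noncomputable def PhiF (f : Tup κ) (Q : ℕ) : Po κ →ₗ[κ] Po κ :=
  (basisMonomials (Fin 3) κ).constr κ (BB f Q)

theorem PhiF_monomial (f : Tup κ) (Q : ℕ) (m : Fin 3 →₀ ℕ) :
    PhiF f Q (monomial m 1) = BB f Q m := by
  have := (basisMonomials (Fin 3) κ).constr_basis κ (BB f Q) m
  rw [coe_basisMonomials] at this
  exact this

theorem PhiF_sum (f : Tup κ) (Q : ℕ) (p : Po κ) :
    PhiF f Q p = ∑ m ∈ p.support, coeff m p • BB f Q m := by
  conv_lhs => rw [as_sum p]
  rw [map_sum]
  apply Finset.sum_congr rfl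
  intro m _
  have : monomial m (coeff m p) = coeff m p • (monomial m (1 : κ)) := by
    rw [smul_monomial, smul_eq_mul, mul_one]
  rw [this, map_smul, PhiF_monomial]

theorem PhiF_mul {f : Tup κ} {Q : ℕ} (hQ : 0 < Q) (i : Fin 3) (p : Po κ) :
    PhiF f Q (X i ^ Q * p) = (X i ^ Q - f i) * PhiF f Q p := by
  classical
  have h : (PhiF f Q) ∘ₗ (LinearMap.mulLeft κ (X i ^ Q)) =
      (LinearMap.mulLeft κ (X i ^ Q - f i)) ∘ₗ (PhiF f Q) := by
    apply (basisMonomials (Fin 3) κ).ext
    intro m
    rw [coe_basisMonomials]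
    simp only [LinearMap.comp_apply, LinearMap.mulLeft_apply]
    rw [PhiF_monomial, X_pow_eq_monomial, monomial_mul, one_mul, PhiF_monomial]
    unfold BB
    rw [← Finset.mul_prod_erase Finset.univ _ (Finset.mem_univ i),
      ← Finset.mul_prod_erase Finset.univ (fun j => (X j ^ Q - f j) ^ (m j / Q) * X j ^ (m j % Q))
        (Finset.mem_univ i)]
    have e1 : (Finsupp.single i Q + m) i = m i + Q := by
      rw [Finsupp.add_apply, Finsupp.single_eq_same, add_comm]
    rw [e1, Nat.add_div_right _ hQ, Nat.add_mod_right, pow_succ, ← mul_assoc, ← X_pow_eq_monomial]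
    have e2 : ∏ x ∈ Finset.univ.erase i, ((X x ^ Q - f x) ^ ((Finsupp.single i Q + m) x / Q) *
        X x ^ ((Finsupp.single i Q + m) x % Q)) =
        ∏ x ∈ Finset.univ.erase i, ((X x ^ Q - f x) ^ (m x / Q) * X x ^ (m x % Q)) := by
      apply Finset.prod_congr rfl
      intro x hx
      have hne : i ≠ x := (Finset.ne_of_mem_erase hx).symm
      rw [Finsupp.add_apply, Finsupp.single_eq_of_ne hne.symm, zero_add]
    rw [e2]
    ring
  exact LinearMap.congr_fun h p

theorem PhiF_ltD {f : Tup κ} {Q : ℕ} (hf : deg f < Q) {p : Po κ} {n : ℕ} (hp : LeD p n) :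
    LtD (PhiF f Q p - p) n := by
  have e : PhiF f Q p - p = ∑ m ∈ p.support, coeff m p • (BB f Q m - monomial m 1) := by
    rw [PhiF_sum]
    conv_lhs =>
      rw [as_sum p]
    have : ∀ m ∈ p.support, coeff m p • (BB f Q m - monomial m 1) =
        coeff m p • BB f Q m - monomial m (coeff m p) := by
      intro m _
      rw [smul_sub, smul_monomial, smul_eq_mul, mul_one]
    rw [Finset.sum_congr rfl this, Finset.sum_sub_distrib, ← as_sum p]
  rw [e]
  intro m' hm'
  rw [coeff_sum]
  apply Finset.sum_eq_zero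
  intro m hm
  have hmn : m.degree ≤ n := by
    by_contra hcon
    exact (mem_support_iff.1 hm) (hp m (not_le.1 hcon))
  exact ((BB_eqv hf m).d.smul _) m' (hmn.trans hm')

theorem PhiF_surj {f : Tup κ} {Q : ℕ} (hf : deg f < Q) (p : Po κ) : ∃ g, PhiF f Q g = p := by
  have key : ∀ n : ℕ, ∀ p : Po κ, LtD p n → ∃ g, PhiF f Q g = p := by
    intro n
    induction n with
    | zero =>
      intro p hp
      refine ⟨0, ?_⟩
      rw [map_zero]
      symm
      apply MvPolynomial.ext
      intro m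
      rw [coeff_zero]
      exact hp m (Nat.zero_le _)
    | succ n ih =>
      intro p hp
      have hle : LeD p n := fun m hm => hp m hm
      obtain ⟨g, hg⟩ := ih _ (PhiF_ltD hf hle)
      refine ⟨p - g, ?_⟩
      rw [map_sub, hg]
      ring
  exact key (p.totalDegree + 1) p (ltD_of_totalDegree (Nat.lt_succ_self _))

end FBA

theorem pf_FBA : T_FBA := by
  classical
  intro κ _ f Q b hf hb hJ
  have hQ : 0 < Q := by omega
  rw [Ideal.mem_span_range_iff_exists_fun] at hJ
  obtain ⟨h, hh⟩ := hJ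
  choose g hg using fun i => PhiF_surj hf (h i)
  set c : Po κ := ∑ i, X i ^ Q * g i with hc
  have hΦ : PhiF f Q c = b := by
    rw [hc, map_sum, ← hh]
    apply Finset.sum_congr rfl
    intro i _
    rw [PhiF_mul hQ, hg]
    ring
  have hlow : ∀ m : Fin 3 →₀ ℕ, m.degree < Q → coeff m c = 0 := by
    intro m hm
    rw [hc, coeff_sum]
    apply Finset.sum_eq_zero
    intro i _
    rw [X_pow_eq_monomial, coeff_monomial_mul', if_neg]
    intro hle
    have h1 : Q ≤ m i := by
      have := hle i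
      rwa [Finsupp.single_eq_same] at this
    have h2 : m i ≤ m.degree := by
      rw [Finsupp.degree_eq_sum]
      exact Finset.single_le_sum (f := fun i => m i) (fun _ _ => Nat.zero_le _) (Finset.mem_univ i)
    omega
  by_cases hc0 : c = 0
  · rw [← hΦ, hc0, map_zero]
  · exfalso
    -- a monomial of maximal degree
    obtain ⟨m, hm, hmax⟩ := Finset.exists_max_image c.support (fun m => m.degree)
      (support_nonempty.2 hc0)
    have hle : LeD c m.degree := by
      intro m' hm'
      by_contra hcon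
      have := hmax m' (mem_support_iff.2 hcon)
      omega
    have h1 := PhiF_ltD hf hle m le_rfl
    rw [hΦ, coeff_sub, sub_eq_zero] at h1
    have h2 : coeff m b ≠ 0 := by rw [h1]; exact mem_support_iff.1 hm
    have h3 : Q ≤ m.degree := by
      by_contra hcon
      exact (mem_support_iff.1 hm) (hlow m (not_le.1 hcon))
    have h4 := le_totalDegree (mem_support_iff.2 h2)
    have h5 : m.degree = m.sum fun _ e => e := rfl
    omega

end Pool.Agent.H8.ZA
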