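import Pool.Agent.H8.ZA.Targets
import Pool.Agent.H8.ZA.Basic

set_option autoImplicit false

open MvPolynomial
open Pool.Agent.H12.ZD (pmap v NoInv DenseOrbit)

namespace Pool.Agent.H8.ZA

theorem const_max_one {K : IntermediateField ℚ Qb} (F : HFam K) (a : Qb) :
    Const F fun i => max 1 (F.abv i a) := by
  refine ⟨fun i => le_max_left _ _, ?_⟩
  by_cases ha : a = 0
  · have : {i | max 1 (F.abv i a) ≠ 1} = ∅ := by
      ext i
      simp [ha]
    rw [this]
    exact Set.finite_empty
  · refine (F.finite a ha).subset fun i hi h1 => hi ?_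
    simp only [h1, max_self]

theorem const_prod {K : IntermediateField ℚ Qb} (F : HFam K) {α : Type} (s : Finset α)
    (g : α → F.ι → ℝ) (hg : ∀ m, Const F (g m)) : Const F fun i => ∏ m ∈ s, g m i := by
  classical
  induction s using Finset.induction_on with
  | empty => simpa using Const.one F
  | insert a s ha ih =>
    simp only [Finset.prod_insert ha]
    exact (hg a).mul ih

theorem const_arch {K : IntermediateField ℚ Qb} (F : HFam K) {b : ℝ} (hb : 1 ≤ b) :
    Const F fun i => by classical exact if i ∈ F.arch then b else 1 := by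
  classical
  refine ⟨fun i => ?_, F.arch.finite_toSet.subset fun i hi => ?_⟩
  · split_ifs
    · exact hb
    · exact le_rfl
  · by_contra hcon
    apply hi
    rw [if_neg (by simpa using hcon)]

theorem le_prod_max {α : Type} (s : Finset α) (g : α → ℝ) {a : α} (ha : a ∈ s) :
    g a ≤ ∏ m ∈ s, max 1 (g m) := by
  classical
  rw [← Finset.mul_prod_erase s _ ha]
  have h1 : 1 ≤ ∏ m ∈ s.erase a, max 1 (g m) := by
    have : ∏ m ∈ s.erase a, (1 : ℝ) ≤ ∏ m ∈ s.erase a, max 1 (g m) :=
      Finset.prod_le_prod (fun _ _ => zero_le_one) (fun m _ => le_max_left _ _)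
    simpa using this
  have h2 : (0 : ℝ) ≤ max 1 (g a) := zero_le_one.trans (le_max_left _ _)
  calc g a ≤ max 1 (g a) := le_max_right _ _
    _ = max 1 (g a) * 1 := (mul_one _).symm
    _ ≤ _ := mul_le_mul_of_nonneg_left h1 h2

theorem abv_monomial_le (w : AbsoluteValue Qb ℝ) (x : Fin 3 → Qb) (q : Po Qb) {m : Fin 3 →₀ ℕ}
    (hm : m ∈ q.support) : w (∏ i, x i ^ m i) ≤ sz w x ^ q.totalDegree := by
  rw [map_prod]
  have h1 : ∏ i, w (x i ^ m i) ≤ ∏ i, sz w x ^ m i := by
    apply Finset.prod_le_prod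
    · intro i _
      exact w.nonneg _
    · intro i _
      rw [map_pow]
      exact pow_le_pow_left₀ (w.nonneg _) (le_sz w x i) _
  refine h1.trans ?_
  rw [Finset.prod_pow_eq_pow_sum]
  apply pow_le_pow_right₀ (one_le_sz w x)
  have := le_totalDegree hm
  rw [Finsupp.sum_fintype _ _ (fun _ => rfl)] at this
  exact this

theorem na_sum {w : AbsoluteValue Qb ℝ} (hw : NA w) {α : Type} (s : Finset α) (g : α → Qb) {B : ℝ}
    (hB : 0 ≤ B) (h : ∀ a ∈ s, w (g a) ≤ B) : w (∑ a ∈ s, g a) ≤ B := by
  classical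
  induction s using Finset.induction_on with
  | empty => simpa using hB
  | insert a s ha ih =>
    rw [Finset.sum_insert ha]
    refine (hw _ _).trans (max_le (h a (Finset.mem_insert_self _ _)) (ih ?_))
    exact fun b hb => h b (Finset.mem_insert_of_mem hb)

theorem pf_HUB : T_HUB := by
  classical
  intro K F q
  set P : F.ι → ℝ := fun i => ∏ m ∈ q.support, max 1 (F.abv i (coeff m q)) with hP
  have hPC : Const F P := const_prod F q.support (fun m i => max 1 (F.abv i (coeff m q)))
    (fun m => const_max_one F _)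
  have hb : (1 : ℝ) ≤ (q.support.card : ℝ) + 1 := by
    have : (0 : ℝ) ≤ q.support.card := Nat.cast_nonneg _
    linarith
  refine ⟨_, hPC.mul (const_arch F hb), ?_⟩
  intro i x
  have hP0 : 0 ≤ P i := zero_le_one.trans (hPC.one_le i)
  have hs0 : 0 ≤ sz (F.abv i) x ^ q.totalDegree := pow_nonneg (sz_pos _ _).le _
  have hterm : ∀ m ∈ q.support, F.abv i (coeff m q * ∏ j, x j ^ m j) ≤
      P i * sz (F.abv i) x ^ q.totalDegree := by
    intro m hm
    rw [map_mul]
    apply mul_le_mul (le_prod_max q.support (fun m => F.abv i (coeff m q)) hm)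
      (abv_monomial_le _ _ _ hm) ((F.abv i).nonneg _) hP0
  rw [eval_eq']
  split_ifs with hi
  · have h1 : F.abv i (∑ m ∈ q.support, coeff m q * ∏ j, x j ^ m j) ≤
        ∑ m ∈ q.support, F.abv i (coeff m q * ∏ j, x j ^ m j) := by
      exact (F.abv i).sum_le _ _
    have h2 := Finset.sum_le_card_nsmul q.support _ _ hterm
    refine (h1.trans h2).trans ?_
    rw [nsmul_eq_mul]
    have h3 : 0 ≤ P i * sz (F.abv i) x ^ q.totalDegree := mul_nonneg hP0 hs0
    nlinarith
  · rw [mul_one]
    exact na_sum (F.na i hi) _ _ (mul_nonneg hP0 hs0) hterm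

end Pool.Agent.H8.ZA
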