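import Pool.Agent.H8.ZA.Targets
import Pool.Agent.H8.ZA.Basic

set_option autoImplicit false

open MvPolynomial
open Pool.Agent.H12.ZD (pmap v NoInv DenseOrbit)

namespace Pool.Agent.H8.ZA

theorem pf_REV : T_REV := by
  intro k _ f f' x hinv hd h hh
  -- ideals of the tails
  let I : ℕ → Ideal (Po k) := fun n =>
    { carrier := {q | ∀ m, n ≤ m → eval ((pmap f)^[m] x) q = 0}
      add_mem' := by
        intro a b ha hb m hm
        simp only [Set.mem_ofPred_eq] at ha hb ⊢
        rw [map_add, ha m hm, hb m hm, add_zero]
      zero_mem' := by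
        intro m _
        simp
      smul_mem' := by
        intro c q hq m hm
        simp only [Set.mem_ofPred_eq] at hq ⊢
        rw [smul_eq_mul, map_mul, hq m hm, mul_zero] }
  have hI : ∀ n q, q ∈ I n ↔ ∀ m, n ≤ m → eval ((pmap f)^[m] x) q = 0 := fun n q => Iff.rfl
  have hmono : Monotone I := by
    intro a b hab q hq
    rw [hI] at hq ⊢
    exact fun m hm => hq m (hab.trans hm)
  have hstep : ∀ n q, q ∈ I (n + 1) ↔ aeval f q ∈ I n := by
    intro n q
    rw [hI, hI]
    constructor
    · intro hq m hm
      rw [eval_aeval, ← Function.iterate_succ_apply' (pmap f) m x]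
      exact hq (m + 1) (by omega)
    · intro hq m hm
      obtain ⟨m', rfl⟩ : ∃ m', m = m' + 1 := ⟨m - 1, by omega⟩
      rw [Function.iterate_succ_apply', ← eval_aeval]
      exact hq m' (by omega)
  obtain ⟨N, hN⟩ := monotone_stabilizes_iff_noetherian.2 (inferInstance : IsNoetherian (Po k) (Po k))
    ⟨I, hmono⟩
  have hN1 : I N = I (N + 1) := hN (N + 1) (by omega)
  have hdown : ∀ n, I n = I (n + 1) → I 0 = I 1 := by
    intro n
    induction n with
    | zero => exact id
    | succ n ih =>
      intro h1
      apply ih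
      ext q
      have h2 : q = aeval f (aeval f' q) := (hinv.aeval_right q).symm
      rw [h2, ← hstep, ← hstep, h1]
  have h01 := hdown N hN1
  have hback : ∀ q, q ∈ I 0 → aeval f' q ∈ I 0 := by
    intro q hq
    rw [h01, hstep, hinv.aeval_right]
    exact hq
  have hh0 : h ∈ I 0 := by
    rw [hI]
    exact fun m _ => hh m
  apply hd
  intro n
  have hn : ∀ n : ℕ, ∀ q, q ∈ I 0 → eval ((pmap f')^[n] x) q = 0 := by
    intro n
    induction n with
    | zero =>
      intro q hq
      exact hq 0 le_rfl
    | succ n ih =>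
      intro q hq
      rw [Function.iterate_succ_apply', ← eval_aeval]
      exact ih _ (hback q hq)
  exact hn n h hh0

end Pool.Agent.H8.ZA
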